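import Pool.Agent.Helper57.TX.Defs
import Pool.Agent.Helper7.UV.Mert

/-!
# TX A6, A6': the variances of the squares of primes and of `SS`
-/

set_option autoImplicit false
open MeasureTheory Set Filter Topology
open Pool.Agent.Helper7.UV (mert_window)
open Pool.Agent.Helper57.TX

namespace Pool.Agent.Helper64.TX

lemma mem_QX {X : ℝ} {p : ℕ} : p ∈ QX X ↔ p.Prime ∧ Real.log p ≤ X := by
  unfold QX
  rw [Finset.mem_filter, Finset.mem_range, Nat.lt_succ_iff]
  constructor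
  · rintro ⟨h1, h2⟩
    refine ⟨h2, ?_⟩
    rw [Real.log_le_iff_le_exp (by exact_mod_cast h2.pos)]
    exact (Nat.le_floor_iff (Real.exp_pos X).le).1 h1
  · rintro ⟨h1, h2⟩
    refine ⟨?_, h1⟩
    rw [Real.log_le_iff_le_exp (by exact_mod_cast h1.pos)] at h2
    exact (Nat.le_floor_iff (Real.exp_pos X).le).2 h2

lemma ph_abs {u : ℝ} (hu : 0 ≤ u) : |ph u| ≤ 2 := by
  unfold ph
  have h1 : 0 ≤ max 0 (1 - u) := le_max_left _ _
  have h2 : max 0 (1 - u) ≤ 1 := max_le (by norm_num) (by linarith)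
  have h3 : 0 ≤ max 0 (1 - 2 * u) := le_max_left _ _
  have h4 : max 0 (1 - 2 * u) ≤ 1 := max_le (by norm_num) (by linarith)
  rw [abs_le]
  constructor <;> nlinarith

/-- A6: the other variances -/
theorem var_rb : ∃ C : ℝ, 0 < C ∧ ∀ X : ℝ, 1 / 2 ≤ X → ∑ p ∈ QX (X / 2), rb X p ^ 2 / p ≤ C := by
  have hs : Summable fun n : ℕ => 1 / (n : ℝ) ^ 2 := Real.summable_one_div_nat_pow.2 (by norm_num)
  refine ⟨∑' n : ℕ, 1 / (n : ℝ) ^ 2 + 1, ?_, fun X hX => ?_⟩
  · have : 0 ≤ ∑' n : ℕ, 1 / (n : ℝ) ^ 2 := tsum_nonneg fun n => by positivity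
    linarith
  · have h1 : ∑ p ∈ QX (X / 2), rb X p ^ 2 / p ≤ ∑ p ∈ QX (X / 2), 1 / (p : ℝ) ^ 2 := by
      refine Finset.sum_le_sum fun p hp => ?_
      have hp1 := (mem_QX.1 hp).1
      have hp0 : (0 : ℝ) < p := by exact_mod_cast hp1.pos
      have h2 : |rb X p| ≤ 1 / √p := by
        unfold rb
        rw [abs_div, abs_mul, abs_of_nonneg (Real.sqrt_nonneg (p : ℝ))]
        refine div_le_div_of_nonneg_right ?_ (Real.sqrt_nonneg _)
        have h3 : |1 / (2 * Real.pi)| ≤ 1 / 2 := by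
          rw [abs_of_pos (by positivity), div_le_div_iff₀ (by positivity) (by norm_num)]
          nlinarith [Real.pi_gt_three]
        have h4 : |ph (2 * Real.log p / X)| ≤ 2 := ph_abs (by
          have : 0 ≤ Real.log p := Real.log_nonneg (by exact_mod_cast hp1.one_le)
          positivity)
        calc |1 / (2 * Real.pi)| * |ph (2 * Real.log p / X)| ≤ 1 / 2 * 2 :=
              mul_le_mul h3 h4 (abs_nonneg _) (by norm_num)
          _ = 1 := by norm_num
      have h5 : rb X p ^ 2 ≤ 1 / p := by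
        have h6 : rb X p ^ 2 = |rb X p| ^ 2 := (sq_abs _).symm
        rw [h6]
        calc |rb X p| ^ 2 ≤ (1 / √p) ^ 2 := pow_le_pow_left₀ (abs_nonneg _) h2 2
          _ = 1 / p := by rw [div_pow, one_pow, Real.sq_sqrt hp0.le]
      calc rb X p ^ 2 / p ≤ (1 / p) / p := div_le_div_of_nonneg_right h5 hp0.le
        _ = 1 / (p : ℝ) ^ 2 := by field_simp
    have h2 : ∑ p ∈ QX (X / 2), 1 / (p : ℝ) ^ 2 ≤ ∑' n : ℕ, 1 / (n : ℝ) ^ 2 :=
      hs.sum_le_tsum _ fun n _ => by positivity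
    linarith

/-- A6' -/
theorem var_rs : ∃ C : ℝ, 0 < C ∧ ∀ X : ℝ, 1 / 2 ≤ X → ∑ p ∈ QX X, rs X p ^ 2 / p ≤ C := by
  obtain ⟨E, hE, hm⟩ := mert_window
  refine ⟨4 + 8 * E, by positivity, fun X hX => ?_⟩
  have hX0 : 0 < X := by linarith
  have h0 := hm 0 X le_rfl hX0.le (QX X) (fun p => by
    rw [mem_QX]
    constructor
    · rintro ⟨h1, h2⟩
      exact ⟨h1, Real.log_pos (by exact_mod_cast h1.one_lt), h2⟩
    · rintro ⟨h1, _, h2⟩
      exact ⟨h1, h2⟩)
  rw [sub_zero] at h0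
  have h1 : ∑ p ∈ QX X, rs X p ^ 2 / p ≤ ∑ p ∈ QX X, 4 / X * (Real.log p / p) := by
    refine Finset.sum_le_sum fun p hp => ?_
    obtain ⟨hp1, hp2⟩ := mem_QX.1 hp
    have hp0 : (0 : ℝ) < p := by exact_mod_cast hp1.pos
    have hl : 0 ≤ Real.log p := Real.log_nonneg (by exact_mod_cast hp1.one_le)
    have hq0 : 0 ≤ 1 - Real.log p / X := by
      rw [sub_nonneg, div_le_one hX0]
      exact hp2
    have hq1 : 1 - Real.log p / X ≤ 1 := by
      have : 0 ≤ Real.log p / X := by positivity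
      linarith
    have h2 : rs X p ^ 2 ≤ 4 / X * Real.log p := by
      unfold rs
      have h3 : (1 - Real.log p / X) ^ 2 ≤ 1 := pow_le_one₀ hq0 hq1
      have h4 : 0 ≤ 2 / X * Real.log p * (1 - Real.log p / X) ^ 2 := by positivity
      have h5 : 2 / X * Real.log p * (1 - Real.log p / X) ^ 2 ≤ 2 / X * Real.log p :=
        mul_le_of_le_one_right (by positivity) h3
      calc (2 / X * Real.log p * (1 - Real.log p / X) ^ 2) ^ 2 ≤ (2 / X * Real.log p) ^ 2 :=
            pow_le_pow_left₀ h4 h5 2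
        _ = 4 / X * Real.log p * (Real.log p / X) := by
            field_simp
            ring
        _ ≤ 4 / X * Real.log p * 1 :=
            mul_le_mul_of_nonneg_left ((div_le_one hX0).2 hp2) (by positivity)
        _ = 4 / X * Real.log p := mul_one _
    calc rs X p ^ 2 / p ≤ (4 / X * Real.log p) / p := div_le_div_of_nonneg_right h2 hp0.le
      _ = 4 / X * (Real.log p / p) := by ring
  rw [← Finset.mul_sum] at h1
  have h3 : ∑ p ∈ QX X, Real.log p / p ≤ X + E := by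
    rw [abs_le] at h0
    linarith [h0.2]
  have h4 : 4 / X * ∑ p ∈ QX X, Real.log p / p ≤ 4 / X * (X + E) :=
    mul_le_mul_of_nonneg_left h3 (by positivity)
  have h5 : 4 / X * (X + E) = 4 + 4 * E * (1 / X) := by
    field_simp
  have h6 : 1 / X ≤ 2 := by
    rw [div_le_iff₀ hX0]
    linarith
  have h7 : 4 * E * (1 / X) ≤ 4 * E * 2 := mul_le_mul_of_nonneg_left h6 (by positivity)
  linarith

end Pool.Agent.Helper64.TX
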